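import Pool.Agent.Q87.Carleman

/-! Full answer (disproof): on every interval `(a,b)` there are Carleman operators `A` (bounded, of
rank one, everywhere defined) and `B` (closed, densely defined) whose product is not a Carleman
operator. -/

set_option autoImplicit false
open Q87.Carleman

namespace Pool.Agent.Results.MP_fd0bc0_an.CarlemanProduct

/-- For every interval `(a,b)`, `-∞ ≤ a < b ≤ ∞`, there are operators `A`, `B` on `L²(a,b)` such
that `A` is an everywhere defined bounded Carleman operator, `B` is a closed densely defined Carleman
operator, and no Carleman kernel represents `AB` on its natural domain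
`{f ∈ D(B) : Bf ∈ D(A)}`. -/
theorem result (a b : EReal) (hab : a < b) :
    ∃ A B : Opr (mu a b), (Carl A ∧ BddOp A) ∧ (Carl B ∧ DenseOp B ∧ ClosedOp B) ∧
      ¬ ProdCarl A B :=
  interval_bad' a b hab

end Pool.Agent.Results.MP_fd0bc0_an.CarlemanProduct
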